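import Mathlib

/-!
# A finitely generated class of functions that is closed under indefinite integration

On every open interval there are three summable functions such that every continuous function on
every subinterval is obtained from them by rational operations and composition. In particular the
class they generate contains all indefinite integrals of its members.

The three functions are `ω x = exp (-x²)`, `φ ω` where `φ` is a bounded measurable injection with
values in a null set such that the sums `φ x + κ t` (`x` real, `t` a code) are pairwise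
different, and a function `U` which vanishes outside the null set of the points
`p + ε (φ x + κ t)` and stores there the value at `x` of the `t`-th continuous function.
-/

open MeasureTheory Set Filter Topology
open scoped Pointwise

namespace Pool.Agent.Results.MP_4d4a97_an.ClosedUnderIntegration

/-- The open interval `(a, b)`, the endpoints may be infinite. -/
def interval (a b : EReal) : Set ℝ := {x : ℝ | a < (x : EReal) ∧ (x : EReal) < b}

/-- A real function defined on a set of reals: `g x = none` means that `g` is not defined at `x`. -/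
abbrev PFn := ℝ → Option ℝ

open Classical in
/-- The rational combination `x ↦ P (g₁ x, …, g_m x) / Q (g₁ x, …, g_m x)`, defined where all `g j`
are defined and the denominator is not `0`. -/
noncomputable def ratComb {m : ℕ} (P Q : MvPolynomial (Fin m) ℝ) (g : Fin m → PFn) : PFn := fun x =>
  if (∀ j, (g j x).isSome) ∧ MvPolynomial.eval (fun j => (g j x).getD 0) Q ≠ 0 then
    some (MvPolynomial.eval (fun j => (g j x).getD 0) P /
      MvPolynomial.eval (fun j => (g j x).getD 0) Q)
  else none

/-- The composite `h ∘ k`, defined at the `x` in the domain of `k` with `k x` in the domain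
of `h`. -/
def comp (h k : PFn) : PFn := fun x => (k x).bind h

open Classical in
/-- The function `f` with domain `I`. -/
noncomputable def onSet (I : Set ℝ) (f : ℝ → ℝ) : PFn := fun x => if x ∈ I then some (f x) else none

/-- `R I f` is the smallest class of functions which contains the `f i` (with domain `I`) and is
closed under rational combinations and composition. -/
inductive R (I : Set ℝ) {n : ℕ} (f : Fin n → ℝ → ℝ) : PFn → Prop
  | gen (i : Fin n) : R I f (onSet I (f i))
  | rat {m : ℕ} (hm : 0 < m) (P Q : MvPolynomial (Fin m) ℝ) (g : Fin m → PFn)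
      (hg : ∀ j, R I f (g j)) : R I f (ratComb P Q g)
  | comp (h k : PFn) (hh : R I f h) (hk : R I f k) : R I f (comp h k)

/-- `g` is defined almost everywhere on `J` and summable there. -/
def SummableOn (g : PFn) (J : Set ℝ) : Prop :=
  (∀ᵐ x ∂(volume.restrict J), (g x).isSome) ∧ IntegrableOn (fun x => (g x).getD 0) J

/-- The indefinite integral `x ↦ ∫_α^x g`, where `α` is the left endpoint of `J`. -/
noncomputable def indefinite (g : PFn) (J : Set ℝ) (x : ℝ) : ℝ := ∫ t in J ∩ Iic x, (g t).getD 0

/-! ### The Cantor-like set -/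

/-- interleaving two binary sequences -/
def il (s t : ℕ → Bool) : ℕ → Bool := fun n => if n % 2 = 0 then s (n / 2) else t (n / 2)

lemma il_inj {s s' t t' : ℕ → Bool} (h : il s t = il s' t') : s = s' ∧ t = t' := by
  constructor
  · funext n
    have := congrFun h (2 * n)
    simpa [il] using this
  · funext n
    have := congrFun h (2 * n + 1)
    have e1 : (2 * n + 1) % 2 = 1 := by omega
    have e2 : (2 * n + 1) / 2 = n := by omega
    simpa [il, e1, e2] using this

/-- the all-zero sequence -/
def zz : ℕ → Bool := fun _ => false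

/-- the Cantor function in base four -/
noncomputable def cf (f : ℕ → Bool) : ℝ := Cardinal.cantorFunction (1 / 4) f

lemma cf_add (s t : ℕ → Bool) : cf (il s zz) + cf (il zz t) = cf (il s t) := by
  unfold cf Cardinal.cantorFunction
  rw [← Summable.tsum_add (Cardinal.summable_cantor_function _ (by norm_num) (by norm_num))
    (Cardinal.summable_cantor_function _ (by norm_num) (by norm_num))]
  refine tsum_congr fun n => ?_
  unfold Cardinal.cantorFunctionAux il zz
  rcases Nat.mod_two_eq_zero_or_one n with h | h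
  · simp [h]
  · simp [h]

lemma cf_nonneg (f : ℕ → Bool) : 0 ≤ cf f :=
  tsum_nonneg fun _ => Cardinal.cantorFunctionAux_nonneg (by norm_num)

lemma cf_le (f : ℕ → Bool) : cf f ≤ 4 / 3 := by
  have h1 : cf f ≤ cf (fun _ => true) :=
    Cardinal.cantorFunction_le (by norm_num) (by norm_num) (fun _ _ => rfl)
  refine h1.trans (le_of_eq ?_)
  unfold cf Cardinal.cantorFunction
  have : (Cardinal.cantorFunctionAux (1 / 4) fun _ => true) = fun n : ℕ => (1 / 4 : ℝ) ^ n := by
    funext n; simp
  rw [this, tsum_geometric_of_lt_one (by norm_num) (by norm_num)]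
  norm_num

lemma cf_inj : Function.Injective cf :=
  Cardinal.cantorFunction_injective (by norm_num) (by norm_num)

/-- the Cantor-like set -/
def C : Set ℝ := range cf

lemma volume_C : volume C = 0 := by
  have h1 : C ⊆ ((1 / 4 : ℝ) • C) ∪ ((1 : ℝ) +ᵥ ((1 / 4 : ℝ) • C)) := by
    rintro _ ⟨f, rfl⟩
    have h2 : cf f = cond (f 0) 1 0 + 1 / 4 * cf fun n => f (n + 1) :=
      Cardinal.cantorFunction_succ f (by norm_num) (by norm_num)
    have h3 : 1 / 4 * (cf fun n => f (n + 1)) ∈ (1 / 4 : ℝ) • C :=
      Set.mem_smul_set.2 ⟨_, ⟨_, rfl⟩, rfl⟩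
    rw [h2]
    cases f 0
    · left
      simpa using h3
    · right
      exact Set.mem_vadd_set.2 ⟨_, h3, rfl⟩
  have h4 : volume ((1 / 4 : ℝ) • C) = ENNReal.ofReal (1 / 4) * volume C := by
    rw [Measure.addHaar_smul]
    norm_num
  have h5 : volume ((1 : ℝ) +ᵥ ((1 / 4 : ℝ) • C)) = ENNReal.ofReal (1 / 4) * volume C := by
    rw [measure_vadd, h4]
  have h6 : volume C < ⊤ := by
    have : C ⊆ Icc 0 (4 / 3) := by
      rintro _ ⟨f, rfl⟩
      exact ⟨cf_nonneg f, cf_le f⟩
    refine (measure_mono this).trans_lt ?_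
    rw [Real.volume_Icc]
    exact ENNReal.ofReal_lt_top
  have h7 := (measure_mono (μ := (volume : Measure ℝ)) h1).trans (measure_union_le _ _)
  rw [h4, h5] at h7
  obtain ⟨v, hv⟩ : ∃ v : NNReal, (v : ENNReal) = volume C := ⟨_, ENNReal.coe_toNNReal h6.ne⟩
  rw [← hv] at h7 ⊢
  rw [ENNReal.ofReal, ← ENNReal.coe_mul, ← ENNReal.coe_add, ENNReal.coe_le_coe] at h7
  have h8 : (v : ℝ) ≤ (1 / 4) * v + (1 / 4) * v := by
    have := NNReal.coe_le_coe.2 h7
    rw [NNReal.coe_add, NNReal.coe_mul, Real.coe_toNNReal _ (by norm_num)] at this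
    exact this
  have h9 : (0 : ℝ) ≤ v := v.2
  have h10 : v = 0 := by
    apply NNReal.coe_injective
    rw [NNReal.coe_zero]
    linarith
  rw [h10, ENNReal.coe_zero]

/-! ### Intervals -/

lemma isOpen_interval (a b : EReal) : IsOpen (interval a b) :=
  (isOpen_Ioo (a := a) (b := b)).preimage continuous_coe_real_ereal

lemma interval_nonempty {a b : EReal} (h : a < b) : (interval a b).Nonempty := by
  obtain ⟨x, h1, h2⟩ := EReal.lt_iff_exists_real_btwn.1 h
  exact ⟨x, h1, h2⟩

/-! ### Codes -/

/-- The type of codes of continuous functions on open intervals. -/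
abbrev W := EReal × EReal × (ℚ → ℝ)

lemma exists_surj : ∃ c : (ℕ → Bool) → W, Function.Surjective c := by
  have hE : Cardinal.mk EReal ≤ Cardinal.continuum := by
    have : Cardinal.mk EReal = Cardinal.mk (Option (Option ℝ)) := rfl
    rw [this, Cardinal.mk_option, Cardinal.mk_option, Cardinal.mk_real,
      Cardinal.add_one_eq Cardinal.aleph0_le_continuum,
      Cardinal.add_one_eq Cardinal.aleph0_le_continuum]
  have hW : Cardinal.mk W ≤ Cardinal.mk (ℕ → Bool) := by
    have h1 : Cardinal.mk (ℕ → Bool) = Cardinal.continuum := by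
      simp
    have h2 : Cardinal.mk (ℚ → ℝ) = Cardinal.continuum := by
      simp [Cardinal.mk_real]
    rw [h1]
    calc Cardinal.mk W = Cardinal.mk EReal * (Cardinal.mk EReal * Cardinal.mk (ℚ → ℝ)) := by
          simp [W]
      _ ≤ Cardinal.continuum * (Cardinal.continuum * Cardinal.continuum) := by
          rw [h2]
          gcongr
      _ = Cardinal.continuum := by simp
  obtain ⟨e⟩ := hW
  exact ⟨Function.invFun e, Function.invFun_surjective e.injective⟩

open Classical in
/-- The function with code `w`. -/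
noncomputable def fn (w : W) : ℝ → ℝ :=
  if h : ∃ F : ℝ → ℝ, ContinuousOn F (interval w.1 w.2.1) ∧
      ∀ q : ℚ, (q : ℝ) ∈ interval w.1 w.2.1 → F q = w.2.2 q then h.choose else 0

lemma exists_code {a b : EReal} {F : ℝ → ℝ} (hF : ContinuousOn F (interval a b)) :
    ∃ w : W, ∀ x ∈ interval a b, fn w x = F x := by
  refine ⟨(a, b, fun q => F q), fun x hx => ?_⟩
  have hex : ∃ G : ℝ → ℝ, ContinuousOn G (interval a b) ∧
      ∀ q : ℚ, (q : ℝ) ∈ interval a b → G q = F q := ⟨F, hF, fun _ _ => rfl⟩
  have h0 : fn (a, b, fun q : ℚ => F q) = hex.choose := by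
    unfold fn
    exact dif_pos hex
  rw [h0]
  obtain ⟨hG, hGq⟩ := hex.choose_spec
  generalize hex.choose = G at *
  by_contra hne
  have h1 : ContinuousAt (fun y => G y - F y) x :=
    (hG.continuousAt ((isOpen_interval a b).mem_nhds hx)).sub
      (hF.continuousAt ((isOpen_interval a b).mem_nhds hx))
  have h2 : ∀ᶠ y in 𝓝 x, G y - F y ≠ 0 := h1.eventually_ne (sub_ne_zero.2 hne)
  have h3 : ∀ᶠ y in 𝓝 x, y ∈ interval a b := (isOpen_interval a b).mem_nhds hx
  obtain ⟨V, hV, hVo, hxV⟩ := eventually_nhds_iff.1 (h2.and h3)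
  obtain ⟨q, hq⟩ := Rat.denseRange_cast.exists_mem_open hVo ⟨x, hxV⟩
  obtain ⟨h4, h5⟩ := hV q hq
  exact h4 (sub_eq_zero.2 (hGq q h5))

/-- All continuous functions on all subintervals can be generated. -/
lemma main {a b : EReal} (hab : a < b) : ∃ f : Fin 3 → ℝ → ℝ,
    (∀ i, IntegrableOn (f i) (interval a b)) ∧
    ∀ α β : EReal, interval α β ⊆ interval a b → ∀ F : ℝ → ℝ, ContinuousOn F (interval α β) →
      ∃ h : PFn, R (interval a b) f h ∧ ∀ x ∈ interval α β, h x = some (F x) := by
  classical
  -- a small interval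
  obtain ⟨p, hp⟩ := interval_nonempty hab
  obtain ⟨ε, hε, hball⟩ := Metric.isOpen_iff.1 (isOpen_interval a b) p hp
  obtain ⟨η, hη⟩ : ∃ η, η = ε / 2 := ⟨_, rfl⟩
  have hη0 : 0 < η := by rw [hη]; positivity
  have hmem : ∀ f : ℕ → Bool, p + η * cf f ∈ interval a b := by
    intro f
    apply hball
    rw [Metric.mem_ball, Real.dist_eq, add_sub_cancel_left,
      abs_of_nonneg (mul_nonneg hη0.le (cf_nonneg f))]
    have := cf_le f
    nlinarith
  -- the injection
  have hu1 : ¬ Countable ℝ := fun h => Set.not_countable_univ (α := ℝ) (Set.countable_univ)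
  have hu3 : Cardinal.mk (ℕ → Bool) = Cardinal.continuum := by simp
  have hu2 : ¬ Countable (ℕ → Bool) := by
    intro h
    have h1 := Cardinal.mk_le_aleph0_iff.2 h
    rw [hu3] at h1
    exact absurd h1 (not_le.2 Cardinal.aleph0_lt_continuum)
  let E : ℝ ≃ᵐ (ℕ → Bool) := PolishSpace.measurableEquivOfNotCountable hu1 hu2
  obtain ⟨φ, hφ⟩ : ∃ φ : ℝ → ℝ, φ = fun x => cf (il (E x) zz) := ⟨_, rfl⟩
  have hφm : Measurable φ := by
    rw [hφ]
    refine measurable_of_tendsto_metrizable (f := fun (N : ℕ) (x : ℝ) =>
      ∑ n ∈ Finset.range N, Cardinal.cantorFunctionAux (1 / 4) (il (E x) zz) n) (fun N => ?_)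
      (tendsto_pi_nhds.2 fun x => ?_)
    · refine Finset.measurable_sum _ fun n _ => ?_
      have h1 : Measurable fun x => il (E x) zz n := by
        unfold il
        split_ifs
        · exact (measurable_pi_apply _).comp E.measurable
        · exact measurable_const
      exact (measurable_of_countable (fun b : Bool => cond b ((1 / 4 : ℝ) ^ n) 0)).comp h1
    · exact (Cardinal.summable_cantor_function _ (by norm_num)
        (by norm_num)).hasSum.tendsto_sum_nat
  obtain ⟨c, hc⟩ := exists_surj
  obtain ⟨Ψ, hΨ⟩ : ∃ Ψ : ℝ × (ℕ → Bool) → ℝ, Ψ = fun z => p + η * cf (il (E z.1) z.2) :=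
    ⟨_, rfl⟩
  have hΨi : Function.Injective Ψ := by
    rintro ⟨x, s⟩ ⟨y, t⟩ h
    rw [hΨ] at h
    simp only [add_right_inj, mul_eq_mul_left_iff, hη0.ne', or_false] at h
    obtain ⟨h1, h2⟩ := il_inj (cf_inj h)
    rw [E.injective h1, h2]
  obtain ⟨U, hU⟩ : ∃ U : ℝ → ℝ, U = Function.extend Ψ (fun z => fn (c z.2) z.1) 0 := ⟨_, rfl⟩
  have hU1 : ∀ x t, U (Ψ (x, t)) = fn (c t) x := by
    intro x t
    rw [hU, hΨi.extend_apply]
  have hnull : volume (range Ψ) = 0 := by
    have h1 : range Ψ ⊆ (p : ℝ) +ᵥ (η • C) := by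
      rintro _ ⟨z, rfl⟩
      rw [hΨ]
      exact Set.mem_vadd_set.2 ⟨_, Set.mem_smul_set.2 ⟨_, ⟨_, rfl⟩, rfl⟩, rfl⟩
    refine measure_mono_null h1 ?_
    rw [measure_vadd, Measure.addHaar_smul, volume_C, mul_zero]
  have hU0 : U =ᵐ[volume] 0 := by
    have h1 : ∀ᵐ y ∂(volume : Measure ℝ), y ∉ range Ψ := measure_eq_zero_iff_ae_notMem.1 hnull
    filter_upwards [h1] with y hy
    rw [hU, Function.extend_apply' _ _ _ hy]
  obtain ⟨ω, hω⟩ : ∃ ω : ℝ → ℝ, ω = fun x => Real.exp (-x ^ 2) := ⟨_, rfl⟩
  have hω0 : ∀ x, ω x ≠ 0 := by intro x; rw [hω]; exact (Real.exp_pos _).ne'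
  have hωi : Integrable ω := by
    rw [hω]
    simpa using integrable_exp_neg_mul_sq (b := 1) one_pos
  have hφωi : Integrable (fun x => φ x * ω x) := by
    refine hωi.bdd_mul (c := 4 / 3) hφm.aestronglyMeasurable (Eventually.of_forall fun x => ?_)
    rw [hφ, Real.norm_of_nonneg (cf_nonneg _)]
    exact cf_le _
  refine ⟨![ω, fun x => φ x * ω x, U], ?_, ?_⟩
  · intro i
    fin_cases i
    · exact hωi.integrableOn
    · exact hφωi.integrableOn
    · exact ((integrable_zero ℝ ℝ volume).congr hU0.symm).integrableOn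
  · intro α β hsub F hF
    obtain ⟨w, hw⟩ := exists_code hF
    obtain ⟨t, ht⟩ := hc w
    set f : Fin 3 → ℝ → ℝ := ![ω, fun x => φ x * ω x, U] with hf
    set I := interval a b with hI
    obtain ⟨g, hg⟩ : ∃ g : Fin 2 → PFn, g = ![onSet I (f 0), onSet I (f 1)] := ⟨_, rfl⟩
    have hgR : ∀ j, R I f (g j) := by
      intro j
      rw [hg]
      fin_cases j
      · exact R.gen 0
      · exact R.gen 1
    obtain ⟨P, hP⟩ : ∃ P : MvPolynomial (Fin 2) ℝ, P =
        MvPolynomial.C p * MvPolynomial.X 0 + MvPolynomial.C η *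
          (MvPolynomial.X 1 + MvPolynomial.C (cf (il zz t)) * MvPolynomial.X 0) := ⟨_, rfl⟩
    have hk := R.rat (I := I) (f := f) (m := 2) (by norm_num) P (MvPolynomial.X 0) g hgR
    have hU' := R.gen (I := I) (f := f) 2
    refine ⟨_, R.comp _ _ hU' hk, fun x hx => ?_⟩
    have hxI : x ∈ I := hsub hx
    have hg0 : g 0 x = some (ω x) := by
      rw [hg]; simp [onSet, hxI, hf]
    have hg1 : g 1 x = some (φ x * ω x) := by
      rw [hg]; simp [onSet, hxI, hf]
    have hval : ratComb P (MvPolynomial.X 0) g x = some (Ψ (x, t)) := by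
      unfold ratComb
      have h1 : ∀ j, (g j x).isSome := by
        intro j
        fin_cases j
        · simp [hg0]
        · simp [hg1]
      have h2 : MvPolynomial.eval (fun j => (g j x).getD 0) (MvPolynomial.X (R := ℝ) 0) = ω x := by
        rw [MvPolynomial.eval_X, hg0]; rfl
      have h3 : MvPolynomial.eval (fun j => (g j x).getD 0) P =
          p * ω x + η * (φ x * ω x + cf (il zz t) * ω x) := by
        rw [hP]
        simp only [map_add, map_mul, MvPolynomial.eval_C, MvPolynomial.eval_X, hg0, hg1,
          Option.getD_some]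
      rw [if_pos ⟨h1, by rw [h2]; exact hω0 x⟩, h2, h3]
      congr 1
      rw [hΨ]
      simp only
      rw [← cf_add (E x) t, hφ]
      field_simp [hω0 x]
    unfold comp
    rw [hval, Option.bind_some]
    unfold onSet
    have h4 : Ψ (x, t) ∈ I := by rw [hΨ]; exact hmem _
    rw [if_pos h4]
    congr 1
    have h5 : f 2 = U := by simp [hf]
    rw [h5, hU1, ht]
    exact hw x hx

/-- **On every open interval `(a, b)` there are finitely many (three) summable functions such that
the class generated by them under rational combinations and composition is closed under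
indefinite integration.** -/
theorem result (a b : EReal) (hab : a < b) :
    ∃ (n : ℕ) (f : Fin n → ℝ → ℝ), (∀ i, IntegrableOn (f i) (interval a b)) ∧
      ∀ g : PFn, R (interval a b) f g →
        ∀ α β : EReal, α < β → interval α β ⊆ interval a b → SummableOn g (interval α β) →
          ∃ h : PFn, R (interval a b) f h ∧
            ∀ x ∈ interval α β, h x = some (indefinite g (interval α β) x) := by
  obtain ⟨f, hf, hmain⟩ := main hab
  refine ⟨3, f, hf, fun g _ α β _ hsub hg => ?_⟩
  refine hmain α β hsub _ ?_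
  set J := interval α β with hJ
  have hJm : MeasurableSet J := (isOpen_interval α β).measurableSet
  set G : ℝ → ℝ := J.indicator fun t => (g t).getD 0 with hG
  have hGi : Integrable G := (integrable_indicator_iff hJm).2 hg.2
  have h1 : indefinite g J = fun x => (∫ t in Iic (0 : ℝ), G t) + ∫ t in (0 : ℝ)..x, G t := by
    funext x
    rw [← intervalIntegral.integral_Iic_sub_Iic hGi.integrableOn hGi.integrableOn,
      add_sub_cancel]
    unfold indefinite
    rw [hG, setIntegral_indicator hJm, inter_comm]
  rw [h1]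
  exact (continuous_const.add (intervalIntegral.continuous_primitive
    (fun _ _ => hGi.intervalIntegrable) 0)).continuousOn

end Pool.Agent.Results.MP_4d4a97_an.ClosedUnderIntegration
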